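import Pool.Agent.TH582.FM.ShiftB

/-! Explicit fourth moment: the contour shift `S_SHIFT`. -/

set_option autoImplicit false

namespace Pool.Agent.TH582.FM

open Complex MeasureTheory Set Filter Topology
open Pool.Agent.TH158.FM

noncomputable section

theorem nsq_ge {s : ℂ} (h : 1 / 2 ≤ |s.re|) : (1 + |s.im|) ^ 2 / 8 ≤ ‖s‖ ^ 2 := by
  rw [Complex.sq_norm, Complex.normSq_apply]
  have h1 : (1 / 2 : ℝ) ^ 2 ≤ s.re ^ 2 := by
    rw [← sq_abs s.re]; gcongr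
  have h2 : s.im ^ 2 = |s.im| ^ 2 := (sq_abs _).symm
  nlinarith [sq_nonneg (|s.im| - 1)]

theorem prod_ge {s w : ℂ} (h : 1 / 2 ≤ |s.re|) (h' : 1 / 2 ≤ |w.re|) (hw : w.im = s.im) :
    (1 + |s.im|) ^ 2 / 8 ≤ ‖s‖ * ‖w‖ := by
  have h1 := nsq_ge h
  have h2 := nsq_ge h'
  rw [hw] at h2
  have hu : 0 ≤ (1 + |s.im|) ^ 2 / 8 := by positivity
  have h3 : ((1 + |s.im|) ^ 2 / 8) ^ 2 ≤ (‖s‖ * ‖w‖) ^ 2 := by
    calc ((1 + |s.im|) ^ 2 / 8) ^ 2 = (1 + |s.im|) ^ 2 / 8 * ((1 + |s.im|) ^ 2 / 8) := by ring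
      _ ≤ ‖s‖ ^ 2 * ‖w‖ ^ 2 := mul_le_mul h1 h2 hu (by positivity)
      _ = _ := by ring
  exact (sq_le_sq₀ hu (by positivity)).1 h3

theorem frac_bound {s w : ℂ} (h : 1 / 2 ≤ |s.re|) (h' : 1 / 2 ≤ |w.re|) (hw : w.im = s.im) :
    ‖1 / (s * w)‖ ≤ 8 * (1 + |s.im|) ^ (-(3 / 2 : ℝ)) := by
  have h1 := prod_ge h h' hw
  have h2 : 0 < (1 + |s.im|) ^ 2 / 8 := by positivity
  rw [norm_div, norm_one, norm_mul, one_div]
  calc (‖s‖ * ‖w‖)⁻¹ ≤ ((1 + |s.im|) ^ 2 / 8)⁻¹ := inv_anti₀ h2 h1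
    _ = 8 * ((1 + |s.im|) ^ 2)⁻¹ := by rw [inv_div]; rfl
    _ ≤ 8 * (1 + |s.im|) ^ (-(3 / 2 : ℝ)) := by
        have := rpow_bd |s.im| (abs_nonneg _)
        gcongr

theorem ne_zero_of_re {s : ℂ} (h : 1 / 2 ≤ |s.re|) : s ≠ 0 := by
  rintro rfl
  norm_num at h

theorem int_a {σ : ℝ} (h : 1 / 2 ≤ |σ - 1|) :
    Integrable (fun t : ℝ => 1 / ((σ : ℂ) + t * I - 1) ^ 2) := by
  refine Pool.Agent.H295R2.vertical_integrable (H := fun s : ℂ => 1 / (s - 1) ^ 2) (a := σ) (B := 8)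
    ?_ ?_
  · intro s hs
    have h0 : s - 1 ≠ 0 := ne_zero_of_re (by rw [Complex.sub_re, hs, Complex.one_re]; exact h)
    refine ContinuousAt.div continuousAt_const (by fun_prop) (pow_ne_zero 2 h0)
  · intro s hs
    have h0 : 1 / 2 ≤ |(s - 1).re| := by rw [Complex.sub_re, hs, Complex.one_re]; exact h
    have h1 := frac_bound h0 h0 rfl
    rw [← sq] at h1
    rw [Complex.sub_im, Complex.one_im, sub_zero] at h1
    exact h1

theorem int_b {σ : ℝ} (h : 1 / 2 ≤ |σ - 1|) (h' : 1 / 2 ≤ |σ|) :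
    Integrable (fun t : ℝ => 1 / (((σ : ℂ) + t * I) * ((σ : ℂ) + t * I - 1))) := by
  refine Pool.Agent.H295R2.vertical_integrable (H := fun s : ℂ => 1 / (s * (s - 1))) (a := σ)
    (B := 8) ?_ ?_
  · intro s hs
    have h0 : s - 1 ≠ 0 := ne_zero_of_re (by rw [Complex.sub_re, hs, Complex.one_re]; exact h)
    have h1 : s ≠ 0 := ne_zero_of_re (by rw [hs]; exact h')
    refine ContinuousAt.div continuousAt_const (by fun_prop) (mul_ne_zero h1 h0)
  · intro s hs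
    have h0 : 1 / 2 ≤ |(s - 1).re| := by rw [Complex.sub_re, hs, Complex.one_re]; exact h
    have h1 : 1 / 2 ≤ |s.re| := by rw [hs]; exact h'
    exact frac_bound h1 h0 (by simp)

theorem tend_inv {l : Filter ℝ} (hl : Tendsto (fun t : ℝ => |t|) l atTop) {c : ℝ}
    (hc : 1 / 2 ≤ |c|) : Tendsto (fun t : ℝ => 1 / ((c : ℂ) + t * I)) l (𝓝 0) := by
  have h1 : Tendsto (fun t : ℝ => 3 / (1 + |t|)) l (𝓝 0) :=
    tendsto_const_nhds.div_atTop (tendsto_atTop_add_const_left _ _ hl)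
  refine squeeze_zero_norm (fun t => ?_) h1
  have h2 := nsq_ge (s := (c : ℂ) + t * I) (by simpa using hc)
  have e : ((c : ℂ) + t * I).im = t := by simp
  rw [e] at h2
  have ht := abs_nonneg t
  have h3 : (1 + |t|) / 3 ≤ ‖(c : ℂ) + t * I‖ := by
    refine (sq_le_sq₀ (by positivity) (norm_nonneg _)).1 ?_
    refine le_trans ?_ h2
    nlinarith [sq_nonneg (1 + |t|)]
  rw [norm_div, norm_one, one_div]
  calc ‖(c : ℂ) + t * I‖⁻¹ ≤ ((1 + |t|) / 3)⁻¹ := inv_anti₀ (by positivity) h3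
    _ = 3 / (1 + |t|) := by rw [inv_div]

theorem abs_bot : Tendsto (fun t : ℝ => |t|) atBot atTop := tendsto_abs_atBot_atTop

theorem abs_top : Tendsto (fun t : ℝ => |t|) atTop atTop := tendsto_abs_atTop_atTop

theorem hasDeriv_line (c : ℝ) (t : ℝ) : HasDerivAt (fun t : ℝ => (c : ℂ) + t * I) I t := by
  have := ((Complex.ofRealCLM.hasDerivAt (x := t)).mul_const I).const_add (c : ℂ)
  simpa using this

theorem line_ne {c : ℝ} (hc : 1 / 2 ≤ |c|) (t : ℝ) : (c : ℂ) + t * I ≠ 0 :=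
  ne_zero_of_re (by simpa using hc)

theorem int_sq {c : ℝ} (hc : 1 / 2 ≤ |c|) (hi : Integrable (fun t : ℝ => 1 / ((c : ℂ) + t * I) ^ 2)) :
    ∫ t : ℝ, 1 / ((c : ℂ) + t * I) ^ 2 = 0 := by
  have hd : ∀ t : ℝ, HasDerivAt (fun t : ℝ => I * (1 / ((c : ℂ) + t * I))) (1 / ((c : ℂ) + t * I) ^ 2) t := by
    intro t
    have h1 := ((hasDerivAt_const t (1 : ℂ)).fun_div (hasDeriv_line c t) (line_ne hc t)).const_mul I
    refine h1.congr_deriv ?_
    have e : I * ((0 * ((c : ℂ) + t * I) - 1 * I) / ((c : ℂ) + t * I) ^ 2) =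
        -(I * I) / ((c : ℂ) + t * I) ^ 2 := by ring
    rw [e, Complex.I_mul_I, neg_neg]
  have h2 := integral_of_hasDerivAt_of_tendsto hd hi
    (by simpa using (tend_inv abs_bot hc).const_mul I)
    (by simpa using (tend_inv abs_top hc).const_mul I)
  rw [h2, sub_zero]

theorem int_log (hi : Integrable (fun t : ℝ => 1 / ((((2 : ℝ) : ℂ) + t * I) * (((2 : ℝ) : ℂ) + t * I - 1)))) :
    ∫ t : ℝ, 1 / ((((2 : ℝ) : ℂ) + t * I) * (((2 : ℝ) : ℂ) + t * I - 1)) = 0 := by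
  have hc : (1 / 2 : ℝ) ≤ |1| := by norm_num
  have hslit : ∀ t : ℝ, (1 + 1 / (((1 : ℝ) : ℂ) + t * I)) ∈ Complex.slitPlane := by
    intro t
    rw [Complex.mem_slitPlane_iff]
    left
    rw [Complex.add_re, Complex.one_re, one_div, Complex.inv_re]
    have h1 : 0 < Complex.normSq (((1 : ℝ) : ℂ) + t * I) := Complex.normSq_pos.2 (line_ne hc t)
    have h2 : (((1 : ℝ) : ℂ) + t * I).re = 1 := by simp
    rw [h2]
    positivity
  have hd : ∀ t : ℝ, HasDerivAt (fun t : ℝ => I * Complex.log (1 + 1 / (((1 : ℝ) : ℂ) + t * I)))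
      (1 / ((((2 : ℝ) : ℂ) + t * I) * (((2 : ℝ) : ℂ) + t * I - 1))) t := by
    intro t
    have h1 := ((hasDerivAt_const t (1 : ℂ)).fun_div (hasDeriv_line 1 t) (line_ne hc t)).const_add 1
    have h2 := (h1.clog_real (hslit t)).const_mul I
    refine h2.congr_deriv ?_
    have h3 := line_ne hc t
    have h4 : ((2 : ℝ) : ℂ) + t * I = (((1 : ℝ) : ℂ) + t * I) + 1 := by push_cast; ring
    have h5 : (((1 : ℝ) : ℂ) + t * I) + 1 ≠ 0 := by
      rw [← h4]; exact line_ne (by norm_num) t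
    rw [h4]
    set w := ((1 : ℝ) : ℂ) + t * I with hw
    have h6 : 1 + 1 / w = (w + 1) / w := by field_simp
    rw [h6]
    have h7 : w + 1 - 1 = w := by ring
    rw [h7]
    calc I * ((0 * w - 1 * I) / w ^ 2 / ((w + 1) / w)) =
          (-(I * I)) / (w ^ 2 * ((w + 1) / w)) := by rw [div_div]; ring
      _ = 1 / (w ^ 2 * ((w + 1) / w)) := by rw [Complex.I_mul_I, neg_neg]
      _ = 1 / ((w + 1) * w) := by
          congr 1
          field_simp
  have hlim : ∀ l : Filter ℝ, Tendsto (fun t : ℝ => |t|) l atTop →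
      Tendsto (fun t : ℝ => I * Complex.log (1 + 1 / (((1 : ℝ) : ℂ) + t * I))) l (𝓝 0) := by
    intro l hl
    have h1 := (tend_inv hl hc).const_add (1 : ℂ)
    rw [add_zero] at h1
    have h2 : ContinuousAt Complex.log 1 := continuousAt_clog (by simp)
    have h3 := (h2.tendsto.comp h1).const_mul I
    rw [Complex.log_one, mul_zero] at h3
    exact h3
  have h2 := integral_of_hasDerivAt_of_tendsto hd hi (hlim _ abs_bot) (hlim _ abs_top)
  rw [h2, sub_zero]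

theorem int_half : ∫ t : ℝ, 1 / ((((1 / 2 : ℝ) : ℂ) + t * I) * (((1 / 2 : ℝ) : ℂ) + t * I - 1)) =
    -(2 * Real.pi) := by
  have h1 : ∀ t : ℝ, 1 / ((((1 / 2 : ℝ) : ℂ) + t * I) * (((1 / 2 : ℝ) : ℂ) + t * I - 1)) =
      ((-(4 * (1 + (2 * t) ^ 2)⁻¹) : ℝ) : ℂ) := by
    intro t
    have e : (((1 / 2 : ℝ) : ℂ) + t * I) * (((1 / 2 : ℝ) : ℂ) + t * I - 1) =
        ((-(1 / 4) * (1 + (2 * t) ^ 2) : ℝ) : ℂ) := by
      push_cast
      have : (t : ℂ) * I * ((t : ℂ) * I) = -(t : ℂ) ^ 2 := by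
        calc (t : ℂ) * I * ((t : ℂ) * I) = (t : ℂ) ^ 2 * I ^ 2 := by ring
          _ = _ := by rw [Complex.I_sq]; ring
      linear_combination this
    rw [e, ← Complex.ofReal_one, ← Complex.ofReal_div]
    congr 1
    have : (1 + (2 * t) ^ 2) ≠ 0 := by positivity
    field_simp
  simp_rw [h1]
  rw [integral_complex_ofReal, integral_neg, integral_const_mul]
  have h2 := Measure.integral_comp_mul_left (fun y : ℝ => (1 + y ^ 2)⁻¹) 2
  rw [integral_univ_inv_one_add_sq] at h2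
  rw [h2]
  push_cast
  rw [abs_of_pos (by norm_num : (0:ℝ) < 2⁻¹)]
  simp only [smul_eq_mul]
  push_cast
  ring

theorem BB_eq {δ x : ℝ} (hx : 0 < x) : BB (Real.pi / 2 - δ) x = PP δ x := by
  have hw : ww δ = Complex.exp (((Real.pi / 2 - δ : ℝ) : ℂ) * I) := by
    unfold ww
    rw [Complex.exp_mul_I, ← Complex.ofReal_cos, ← Complex.ofReal_sin, Real.cos_pi_div_two_sub,
      Real.sin_pi_div_two_sub]
  have hxc : (x : ℂ) ≠ 0 := by exact_mod_cast hx.ne'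
  have hE : EE (Real.pi / 2 - δ) x 1 = ((x : ℂ) * ww δ)⁻¹ := by
    unfold EE
    rw [Complex.Gamma_one, one_mul, Complex.cpow_neg_one, mul_one, hw, Complex.exp_neg, mul_inv]
    ring
  unfold BB PP
  rw [hE, div_eq_inv_mul]
  push_cast
  ring

/-- the value of the integral on a line -/
theorem line_val {δ x : ℝ} (hδ : 0 < δ) (hδ2 : δ < Real.pi / 2) (hx : 0 < x) {σ : ℝ}
    (h1 : 1 / 2 ≤ |σ - 1|) (h2 : 1 / 2 ≤ σ) (h3 : σ ≤ 2) :
    (∫ t : ℝ, GG δ (pt σ t) * (x : ℂ) ^ (-(pt σ t))) =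
      (∫ t : ℝ, HH (Real.pi / 2 - δ) x ((σ : ℂ) + t * I)) +
      EE (Real.pi / 2 - δ) x 1 * (∫ t : ℝ, 1 / ((σ : ℂ) + t * I - 1) ^ 2) +
      BB (Real.pi / 2 - δ) x * (∫ t : ℝ, 1 / (((σ : ℂ) + t * I) * ((σ : ℂ) + t * I - 1))) := by
  set θ := Real.pi / 2 - δ with hθ
  have hθ0 : 0 < θ := by rw [hθ]; linarith
  have hθ1 : θ < Real.pi / 2 := by rw [hθ]; linarith
  have h2' : 1 / 2 ≤ |σ| := by rw [abs_of_pos (by linarith)]; exact h2
  obtain ⟨B, hB⟩ := HH_bound hθ0 hθ1 hx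
  have iH : Integrable (fun t : ℝ => HH θ x ((σ : ℂ) + t * I)) :=
    Pool.Agent.H295R2.vertical_integrable (H := HH θ x) (a := σ) (B := B)
      (fun s hs => (HH_diffAt hx (by rw [hs]; linarith)).continuousAt)
      (fun s hs => hB s (by rw [hs]; exact h2) (by rw [hs]; exact h3))
  have ia := (int_a h1).const_mul (EE θ x 1)
  have ib := (int_b h1 h2').const_mul (BB θ x)
  have iHa : Integrable (fun t : ℝ => HH θ x ((σ : ℂ) + t * I) +
      EE θ x 1 * (1 / ((σ : ℂ) + t * I - 1) ^ 2)) := iH.add ia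
  rw [← integral_const_mul, ← integral_const_mul, ← integral_add iH ia, ← integral_add iHa ib]
  refine integral_congr_ae (Eventually.of_forall fun t => ?_)
  simp only
  have hs0 : (σ : ℂ) + t * I ≠ 0 := line_ne h2' t
  have hs1 : (σ : ℂ) + t * I ≠ 1 := by
    intro h
    have h4 := ne_zero_of_re (s := (σ : ℂ) + t * I - 1) (by simpa using h1)
    rw [h, sub_self] at h4
    exact h4 rfl
  rw [HH_eq hx hs0 hs1]
  unfold GG pt EE
  rw [← hθ]
  ring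

/-- **the contour shift** -/
theorem shift_all : S_SHIFT := by
  intro δ hδ hδ2 x hx
  have hθ0 : 0 < Real.pi / 2 - δ := by linarith
  have hθ1 : Real.pi / 2 - δ < Real.pi / 2 := by linarith
  obtain ⟨B, hB⟩ := HH_bound hθ0 hθ1 hx
  have hshift := Pool.Agent.H295R2.contour_shift (H := HH (Real.pi / 2 - δ) x) (a := 1 / 2) (b := 2)
    (B := B) (by norm_num) (fun s hs _ => HH_diffAt hx (by linarith)) hB
  have a1 : (1 / 2 : ℝ) ≤ |(1 / 2 : ℝ) - 1| := by norm_num [abs_of_neg]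
  have a2 : (1 / 2 : ℝ) ≤ |(2 : ℝ) - 1| := by norm_num
  rw [line_val hδ hδ2 hx a1 le_rfl (by norm_num), line_val hδ hδ2 hx a2 (by norm_num) le_rfl]
  have q1 : ∫ t : ℝ, 1 / (((1 / 2 : ℝ) : ℂ) + t * I - 1) ^ 2 = 0 := by
    have e : ∀ t : ℝ, (((1 / 2 : ℝ) : ℂ) + t * I - 1) = ((((1 / 2 : ℝ) - 1 : ℝ) : ℂ) + t * I) := by
      intro t; push_cast; ring
    have hi := int_a a1
    simp_rw [e] at hi ⊢
    exact int_sq a1 hi
  have q2 : ∫ t : ℝ, 1 / (((2 : ℝ) : ℂ) + t * I - 1) ^ 2 = 0 := by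
    have e : ∀ t : ℝ, (((2 : ℝ) : ℂ) + t * I - 1) = ((((2 : ℝ) - 1 : ℝ) : ℂ) + t * I) := by
      intro t; push_cast; ring
    have hi := int_a a2
    simp_rw [e] at hi ⊢
    exact int_sq a2 hi
  have q3 := int_log (int_b a2 (by norm_num))
  have q4 := int_half
  rw [q1, q2, q3, q4, hshift, BB_eq hx]
  ring

end

end Pool.Agent.TH582.FM
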