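import Pool.Agent.TH158.FM.Stm
import Pool.Agent.H295R2.P
import Pool.Agent.Helper242.KK.Gam1

/-! Explicit fourth moment: the holomorphic part of `Γ(s) ζ(s)² x^(-s) e^(-iθs)` and its bound. -/

set_option autoImplicit false

namespace Pool.Agent.TH582.FM

open Complex MeasureTheory Set Filter Topology
open Pool.Agent.TH158.FM

noncomputable section

/-- `Γ(s) exp(-iθs) x^(-s)` -/
def EE (θ x : ℝ) (s : ℂ) : ℂ :=
  Complex.Gamma s * Complex.exp (-((θ : ℂ) * I) * s) * (x : ℂ) ^ (-s)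

/-- numerator -/
def NN (θ x : ℝ) (s : ℂ) : ℂ := EE θ x s * riemannZeta₁ s ^ 2

/-- residue -/
def BB (θ x : ℝ) : ℂ :=
  EE θ x 1 * ((Real.eulerMascheroniConstant : ℂ) - θ * I - Real.log x)

/-- numerator minus the polar part -/
def MM (θ x : ℝ) (s : ℂ) : ℂ := NN θ x s - EE θ x 1 - BB θ x * ((s - 1) / s)

/-- the holomorphic part -/
def HH (θ x : ℝ) (s : ℂ) : ℂ := dslope (dslope (MM θ x) 1) 1 s

theorem EE_diffAt {θ x : ℝ} (hx : 0 < x) {s : ℂ} (hs : 0 < s.re) :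
    DifferentiableAt ℂ (EE θ x) s := by
  unfold EE
  have h1 : DifferentiableAt ℂ Complex.Gamma s := by
    refine Complex.differentiableAt_Gamma s fun m h => ?_
    rw [h] at hs
    simp at hs
    have : (0:ℝ) ≤ m := Nat.cast_nonneg m
    linarith
  have h2 : DifferentiableAt ℂ (fun s : ℂ => Complex.exp (-((θ : ℂ) * I) * s)) s := by fun_prop
  have h3 : DifferentiableAt ℂ (fun s : ℂ => (x : ℂ) ^ (-s)) s :=
    (differentiableAt_id.neg).const_cpow (Or.inl (by exact_mod_cast hx.ne'))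
  exact (h1.mul h2).mul h3

theorem EE_deriv {θ x : ℝ} (hx : 0 < x) :
    HasDerivAt (EE θ x) (EE θ x 1 * (-(Real.eulerMascheroniConstant : ℂ) - θ * I - Real.log x)) 1 := by
  have h1 : HasDerivAt Complex.Gamma (-(Real.eulerMascheroniConstant : ℂ)) 1 :=
    Complex.hasDerivAt_Gamma_one
  have h2 : HasDerivAt (fun s : ℂ => Complex.exp (-((θ : ℂ) * I) * s))
      (Complex.exp (-((θ : ℂ) * I) * 1) * (-((θ : ℂ) * I) * 1)) 1 :=
    ((hasDerivAt_id (1:ℂ)).const_mul (-((θ : ℂ) * I))).cexp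
  have h3 : HasDerivAt (fun s : ℂ => (x : ℂ) ^ (-s)) ((x:ℂ) ^ (-1:ℂ) * Complex.log x * (-1)) 1 :=
    ((hasDerivAt_id (1:ℂ)).neg).const_cpow (Or.inl (by exact_mod_cast hx.ne'))
  have h4 : HasDerivAt (EE θ x) _ 1 := (h1.fun_mul h2).fun_mul h3
  refine h4.congr_deriv ?_
  unfold EE
  rw [Complex.Gamma_one, Complex.ofReal_log hx.le]
  ring

theorem z1_deriv : HasDerivAt riemannZeta₁ (Real.eulerMascheroniConstant : ℂ) 1 := by
  have := (differentiable_riemannZeta₁ 1).hasDerivAt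
  rwa [deriv_riemannZeta₁_one] at this

theorem MM_one (θ x : ℝ) : MM θ x 1 = 0 := by
  unfold MM NN
  rw [riemannZeta₁_one]
  simp

theorem MM_deriv {θ x : ℝ} (hx : 0 < x) : HasDerivAt (MM θ x) 0 1 := by
  have h1 := (EE_deriv (θ := θ) hx).fun_mul (z1_deriv.fun_pow 2)
  have h2 : HasDerivAt (fun s : ℂ => (s - 1) / s) ((1 * 1 - (1 - 1) * 1) / 1 ^ 2) 1 :=
    ((hasDerivAt_id (1:ℂ)).sub_const 1).fun_div (hasDerivAt_id (1:ℂ)) one_ne_zero
  have h3 : HasDerivAt (MM θ x) _ 1 := (h1.sub_const (EE θ x 1)).fun_sub (h2.const_mul (BB θ x))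
  refine h3.congr_deriv ?_
  rw [riemannZeta₁_one]
  unfold BB
  push_cast
  ring

theorem MM_diffAt {θ x : ℝ} (hx : 0 < x) {s : ℂ} (hs : 0 < s.re) :
    DifferentiableAt ℂ (MM θ x) s := by
  have h0 : s ≠ 0 := by rintro rfl; simp at hs
  have h1 := EE_diffAt (θ := θ) hx hs
  have h2 := (differentiable_riemannZeta₁ s).fun_pow 2
  have h3 : DifferentiableAt ℂ (fun s : ℂ => (s - 1) / s) s := by
    refine DifferentiableAt.fun_div (by fun_prop) (by fun_prop) h0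
  unfold MM NN
  exact ((h1.fun_mul h2).sub_const _).fun_sub (h3.const_mul _)

theorem HH_diffAt {θ x : ℝ} (hx : 0 < x) {s : ℂ} (hs : 0 < s.re) :
    DifferentiableAt ℂ (HH θ x) s := by
  have hU : IsOpen {s : ℂ | 0 < s.re} := isOpen_lt continuous_const Complex.continuous_re
  have h1 : DifferentiableOn ℂ (MM θ x) {s : ℂ | 0 < s.re} :=
    fun z hz => (MM_diffAt hx hz).differentiableWithinAt
  have hn : {s : ℂ | 0 < s.re} ∈ 𝓝 (1 : ℂ) := hU.mem_nhds (by simp)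
  have h2 := (Complex.differentiableOn_dslope hn).2 ((Complex.differentiableOn_dslope hn).2 h1)
  exact (h2 s hs).differentiableAt (hU.mem_nhds hs)

theorem HH_eq {θ x : ℝ} (hx : 0 < x) {s : ℂ} (hs0 : s ≠ 0) (hs : s ≠ 1) :
    HH θ x s = EE θ x s * riemannZeta s ^ 2 - EE θ x 1 * (1 / (s - 1) ^ 2) -
      BB θ x * (1 / (s * (s - 1))) := by
  have hs' := sub_ne_zero.mpr hs
  unfold HH
  rw [dslope_of_ne _ hs, slope_def_field, dslope_same, (MM_deriv hx).deriv, dslope_of_ne _ hs,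
    slope_def_field, MM_one]
  unfold MM NN
  have hz : riemannZeta₁ s = (s - 1) * riemannZeta s := by
    rw [riemannZeta_eq_inv_sub_mul hs, ← mul_assoc, mul_inv_cancel₀ hs', one_mul]
  rw [hz]
  field_simp
  ring

end

end Pool.Agent.TH582.FM
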