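import Pool.Agent.TH582.FM.ShiftA

/-! Explicit fourth moment: the bound of the holomorphic part in the strip. -/

set_option autoImplicit false

namespace Pool.Agent.TH582.FM

open Complex MeasureTheory Set Filter Topology
open Pool.Agent.TH158.FM

noncomputable section

theorem EE_bound {θ x : ℝ} (h0 : 0 < θ) (h1 : θ < Real.pi / 2) (hx : 0 < x) :
    ∃ C κ : ℝ, 0 ≤ C ∧ 0 < κ ∧ ∀ s : ℂ, 1 / 2 ≤ s.re → s.re ≤ 2 →
      ‖EE θ x s‖ ≤ C * Real.exp (-(κ * |s.im|)) := by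
  set φ := (θ + Real.pi / 2) / 2 with hφ
  have hφ0 : 0 ≤ φ := by rw [hφ]; linarith [Real.pi_pos]
  have hφ1 : φ < Real.pi / 2 := by rw [hφ]; linarith
  have hφθ : 0 < φ - θ := by rw [hφ]; linarith
  have hc : 0 < Real.cos φ := Real.cos_pos_of_mem_Ioo ⟨by linarith [Real.pi_pos], hφ1⟩
  have hc1 : Real.cos φ ≤ 1 := Real.cos_le_one φ
  obtain ⟨G, hG⟩ := (isCompact_Icc (a := (1 / 2 : ℝ)) (b := 2)).exists_bound_of_continuousOn
    (f := fun σ : ℝ => Real.Gamma σ * x ^ (-σ)) (by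
      intro y hy
      refine ContinuousAt.continuousWithinAt ?_
      refine ContinuousAt.mul ?_ ?_
      · exact (Real.differentiableAt_Gamma (fun m h => by
          have : (0:ℝ) ≤ m := Nat.cast_nonneg m
          linarith [hy.1])).continuousAt
      · exact ContinuousAt.rpow continuousAt_const (by fun_prop) (Or.inl hx.ne'))
  have hG0 : 0 ≤ G := (norm_nonneg _).trans (hG 1 ⟨by norm_num, by norm_num⟩)
  refine ⟨G / Real.cos φ ^ (2:ℝ), φ - θ, by positivity, hφθ, fun s hs1 hs2 => ?_⟩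
  have hre : 0 < s.re := by linarith
  have es : s = (s.re : ℂ) + (s.im : ℂ) * I := (Complex.re_add_im s).symm
  have a1 : ‖Complex.Gamma s‖ ≤ Real.exp (-φ * |s.im|) * Real.Gamma s.re / (Real.cos φ) ^ (2:ℝ) := by
    have h := Pool.Agent.Helper242.KK.norm_Gamma_le_of_angle (σ := s.re) (v := s.im) hre hφ0 hφ1
    rw [← es] at h
    refine h.trans ?_
    have h2 : Real.cos φ ^ (2:ℝ) ≤ Real.cos φ ^ s.re :=
      Real.rpow_le_rpow_of_exponent_ge hc hc1 hs2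
    have h3 : 0 < Real.cos φ ^ (2:ℝ) := Real.rpow_pos_of_pos hc _
    have h4 : 0 ≤ Real.Gamma s.re := (Real.Gamma_pos_of_pos hre).le
    gcongr
  have a2 : ‖Complex.exp (-((θ : ℂ) * I) * s)‖ ≤ Real.exp (θ * |s.im|) := by
    rw [Complex.norm_exp]
    refine Real.exp_le_exp.2 ?_
    have : (-((θ : ℂ) * I) * s).re = θ * s.im := by simp
    rw [this]
    exact mul_le_mul_of_nonneg_left (le_abs_self _) h0.le
  have a3 : ‖(x : ℂ) ^ (-s)‖ = x ^ (-s.re) := by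
    rw [Complex.norm_cpow_eq_rpow_re_of_pos hx, Complex.neg_re]
  have a4 := hG s.re ⟨hs1, hs2⟩
  rw [Real.norm_eq_abs] at a4
  have a5 : Real.Gamma s.re * x ^ (-s.re) ≤ G := (le_abs_self _).trans a4
  have a6 : 0 ≤ x ^ (-s.re) := Real.rpow_nonneg hx.le _
  unfold EE
  rw [norm_mul, norm_mul, a3]
  have h3 : 0 < Real.cos φ ^ (2:ℝ) := Real.rpow_pos_of_pos hc _
  calc ‖Complex.Gamma s‖ * ‖Complex.exp (-((θ : ℂ) * I) * s)‖ * x ^ (-s.re)
      ≤ (Real.exp (-φ * |s.im|) * Real.Gamma s.re / (Real.cos φ) ^ (2:ℝ)) *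
        Real.exp (θ * |s.im|) * x ^ (-s.re) := by gcongr
    _ = (Real.Gamma s.re * x ^ (-s.re)) / Real.cos φ ^ (2:ℝ) *
        (Real.exp (-φ * |s.im|) * Real.exp (θ * |s.im|)) := by ring
    _ = (Real.Gamma s.re * x ^ (-s.re)) / Real.cos φ ^ (2:ℝ) *
        Real.exp (-((φ - θ) * |s.im|)) := by
        rw [← Real.exp_add]; ring_nf
    _ ≤ G / Real.cos φ ^ (2:ℝ) * Real.exp (-((φ - θ) * |s.im|)) := by gcongr

/-- polynomial times exponential decay -/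
theorem poly_exp {κ : ℝ} (hκ : 0 < κ) : ∃ K : ℝ, 0 ≤ K ∧ ∀ t : ℝ, 0 ≤ t →
    (1 + t) ^ 6 * Real.exp (-(κ * t)) ≤ K := by
  refine ⟨720 / κ ^ 6 * Real.exp κ, by positivity, fun t ht => ?_⟩
  have h1 := Real.pow_div_factorial_le_exp (x := κ * (1 + t)) (by positivity) 6
  have h2 : ((6).factorial : ℝ) = 720 := by norm_num [Nat.factorial]
  rw [h2] at h1
  have h3 : (κ * (1 + t)) ^ 6 ≤ 720 * Real.exp (κ * (1 + t)) := by
    rw [div_le_iff₀ (by norm_num)] at h1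
    linarith
  have h4 : Real.exp (κ * (1 + t)) = Real.exp κ * Real.exp (κ * t) := by
    rw [← Real.exp_add]; ring_nf
  rw [h4, mul_pow] at h3
  have h5 : Real.exp (κ * t) * Real.exp (-(κ * t)) = 1 := by
    rw [← Real.exp_add, add_neg_cancel, Real.exp_zero]
  have h6 : 0 < Real.exp (-(κ * t)) := Real.exp_pos _
  have h7 : κ ^ 6 * (1 + t) ^ 6 * Real.exp (-(κ * t)) ≤ 720 * Real.exp κ := by
    calc κ ^ 6 * (1 + t) ^ 6 * Real.exp (-(κ * t))
        ≤ 720 * (Real.exp κ * Real.exp (κ * t)) * Real.exp (-(κ * t)) := by gcongr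
      _ = 720 * Real.exp κ * (Real.exp (κ * t) * Real.exp (-(κ * t))) := by ring
      _ = 720 * Real.exp κ := by rw [h5, mul_one]
  have h8 : 0 < κ ^ 6 := by positivity
  rw [div_mul_eq_mul_div, le_div_iff₀ h8]
  linarith

theorem rpow_bd (y : ℝ) (hy : 0 ≤ y) :
    ((1 + y) ^ 2)⁻¹ ≤ (1 + y) ^ (-(3 / 2 : ℝ)) := by
  have h1 : ((1 + y) ^ 2)⁻¹ = (1 + y) ^ (-2 : ℝ) := by
    rw [Real.rpow_neg (by positivity), Real.rpow_two]
  rw [h1]
  exact Real.rpow_le_rpow_of_exponent_le (by linarith) (by norm_num)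

theorem HH_bound {θ x : ℝ} (h0 : 0 < θ) (h1 : θ < Real.pi / 2) (hx : 0 < x) :
    ∃ B : ℝ, ∀ s : ℂ, 1 / 2 ≤ s.re → s.re ≤ 2 →
      ‖HH θ x s‖ ≤ B * (1 + |s.im|) ^ (-(3 / 2 : ℝ)) := by
  obtain ⟨C, κ, hC, hκ, hE⟩ := EE_bound h0 h1 hx
  obtain ⟨K, hK, hp⟩ := poly_exp hκ
  -- compact part
  have hcpt : IsCompact (Set.Icc (1 / 2 : ℝ) 2 ×ℂ Set.Icc (-1 : ℝ) 1) :=
    isCompact_Icc.reProdIm isCompact_Icc
  obtain ⟨M, hM⟩ := hcpt.exists_bound_of_continuousOn (f := HH θ x) (by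
    intro s hs
    rw [Complex.mem_reProdIm] at hs
    exact (HH_diffAt hx (by linarith [hs.1.1])).continuousAt.continuousWithinAt)
  have hM0 : 0 ≤ M := (norm_nonneg _).trans (hM 1 (by
    rw [Complex.mem_reProdIm]; constructor <;> norm_num))
  set D := C * 2025 * K + 4 * ‖EE θ x 1‖ + 4 * ‖BB θ x‖ with hD
  have hD0 : 0 ≤ D := by rw [hD]; positivity
  refine ⟨4 * M + D, fun s hs1 hs2 => ?_⟩
  have ht := abs_nonneg s.im
  have hpos : 0 < (1 + |s.im|) ^ (-(3 / 2 : ℝ)) := Real.rpow_pos_of_pos (by linarith) _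
  rcases le_or_gt |s.im| 1 with h | h
  · have a1 := hM s (by
      rw [Complex.mem_reProdIm]
      exact ⟨⟨hs1, hs2⟩, abs_le.1 h⟩)
    have a2 : (1 / 4 : ℝ) ≤ (1 + |s.im|) ^ (-(3 / 2 : ℝ)) := by
      have b1 := rpow_bd |s.im| ht
      refine le_trans ?_ b1
      rw [one_div]
      apply inv_anti₀ (by positivity)
      nlinarith
    calc ‖HH θ x s‖ ≤ M := a1
      _ = 4 * M * (1 / 4) := by ring
      _ ≤ (4 * M + D) * (1 + |s.im|) ^ (-(3 / 2 : ℝ)) := by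
          have : 4 * M ≤ 4 * M + D := by linarith
          gcongr
  · have hs0 : s ≠ 0 := by rintro rfl; norm_num at h
    have hs1' : s ≠ 1 := by rintro rfl; norm_num at h
    have n0 : |s.im| ≤ ‖s‖ := Complex.abs_im_le_norm s
    have n1 : |s.im| ≤ ‖s - 1‖ := by
      have := Complex.abs_im_le_norm (s - 1)
      rwa [Complex.sub_im, Complex.one_im, sub_zero] at this
    have n2 : (1 + |s.im|) / 2 ≤ |s.im| := by linarith
    have n3 : ‖s‖ ≤ 2 + |s.im| := by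
      refine (Complex.norm_le_abs_re_add_abs_im s).trans ?_
      rw [abs_of_nonneg (by linarith)]
      linarith
    have hq : ∀ w : ℝ, (1 + |s.im|) ^ 2 / 4 ≤ w → 1 / w ≤ 4 * ((1 + |s.im|) ^ 2)⁻¹ := by
      intro w hw
      have : 0 < (1 + |s.im|) ^ 2 / 4 := by positivity
      rw [one_div]
      calc w⁻¹ ≤ ((1 + |s.im|) ^ 2 / 4)⁻¹ := inv_anti₀ this hw
        _ = 4 * ((1 + |s.im|) ^ 2)⁻¹ := by rw [inv_div]; rfl
    have b1 : ‖1 / (s - 1) ^ 2‖ ≤ 4 * ((1 + |s.im|) ^ 2)⁻¹ := by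
      rw [norm_div, norm_one, norm_pow]
      apply hq
      nlinarith
    have b2 : ‖1 / (s * (s - 1))‖ ≤ 4 * ((1 + |s.im|) ^ 2)⁻¹ := by
      rw [norm_div, norm_one, norm_mul]
      apply hq
      calc (1 + |s.im|) ^ 2 / 4 = ((1 + |s.im|) / 2) * ((1 + |s.im|) / 2) := by ring
        _ ≤ ‖s‖ * ‖s - 1‖ := by
          apply mul_le_mul (by linarith) (by linarith) (by linarith) (norm_nonneg _)
    have b3 : ‖EE θ x s * riemannZeta s ^ 2‖ ≤ C * 2025 * K * ((1 + |s.im|) ^ 2)⁻¹ := by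
      have z1 := Pool.Agent.H295R2.Zs_norm_le (s := s) (by linarith)
      rw [← Pool.Agent.H295R2.Zs_eq hs1', norm_mul] at z1
      have z2 : ‖riemannZeta s‖ ≤ 5 * (‖s‖ + 1) ^ 2 := by
        nlinarith [norm_nonneg (riemannZeta s), norm_nonneg (s - 1)]
      have z3 : ‖riemannZeta s‖ ≤ 45 * (1 + |s.im|) ^ 2 := by
        refine z2.trans ?_
        have : ‖s‖ + 1 ≤ 3 * (1 + |s.im|) := by linarith
        calc 5 * (‖s‖ + 1) ^ 2 ≤ 5 * (3 * (1 + |s.im|)) ^ 2 := by gcongr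
          _ = 45 * (1 + |s.im|) ^ 2 := by ring
      rw [norm_mul, norm_pow]
      calc ‖EE θ x s‖ * ‖riemannZeta s‖ ^ 2
          ≤ (C * Real.exp (-(κ * |s.im|))) * (45 * (1 + |s.im|) ^ 2) ^ 2 := by
            gcongr
            exact hE s hs1 hs2
        _ = C * 2025 * ((1 + |s.im|) ^ 6 * Real.exp (-(κ * |s.im|))) * ((1 + |s.im|) ^ 2)⁻¹ := by
            field_simp
            ring
        _ ≤ C * 2025 * K * ((1 + |s.im|) ^ 2)⁻¹ := by
            have := hp |s.im| ht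
            gcongr
    rw [HH_eq hx hs0 hs1']
    have b4 := rpow_bd |s.im| ht
    calc ‖EE θ x s * riemannZeta s ^ 2 - EE θ x 1 * (1 / (s - 1) ^ 2) -
          BB θ x * (1 / (s * (s - 1)))‖
        ≤ ‖EE θ x s * riemannZeta s ^ 2‖ + ‖EE θ x 1‖ * ‖1 / (s - 1) ^ 2‖ +
          ‖BB θ x‖ * ‖1 / (s * (s - 1))‖ := by
          rw [← norm_mul, ← norm_mul]
          refine (norm_sub_le _ _).trans ?_
          gcongr
          exact norm_sub_le _ _
      _ ≤ C * 2025 * K * ((1 + |s.im|) ^ 2)⁻¹ + ‖EE θ x 1‖ * (4 * ((1 + |s.im|) ^ 2)⁻¹) +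
          ‖BB θ x‖ * (4 * ((1 + |s.im|) ^ 2)⁻¹) := by gcongr
      _ = D * ((1 + |s.im|) ^ 2)⁻¹ := by rw [hD]; ring
      _ ≤ (4 * M + D) * (1 + |s.im|) ^ (-(3 / 2 : ℝ)) := by
          have : D ≤ 4 * M + D := by linarith
          gcongr

end

end Pool.Agent.TH582.FM
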